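import Pool.Agent.Helper533.BallObstacle.Final

/-!
A smooth bounded domain of three dimensional space for which a ball obstacle minimising the first
Dirichlet eigenvalue does not touch the boundary.
-/

open MeasureTheory Metric Set Pool.Agent.Helper533.BallObstacle

namespace Pool.Agent.Results.MP_541d1f_an.InteriorMinimiser

/-- `f x`: first Dirichlet eigenvalue of `Ω` with the closed ball of centre `x` and radius `ρ`
removed. -/
noncomputable def obstacleValue {N : ℕ} (Ω : Set (EuclideanSpace ℝ (Fin N))) (ρ : ℝ)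
    (x : EuclideanSpace ℝ (Fin N)) : ℝ :=
  lambda1 (Ω \ closedBall x ρ)

/-- `x` is an admissible centre (`ball x ρ ⊆ Ω`) minimising `f` among all admissible centres. -/
def IsMinimiser {N : ℕ} (Ω : Set (EuclideanSpace ℝ (Fin N))) (ρ : ℝ)
    (x : EuclideanSpace ℝ (Fin N)) : Prop :=
  ball x ρ ⊆ Ω ∧ ∀ y, ball y ρ ⊆ Ω → obstacleValue Ω ρ x ≤ obstacleValue Ω ρ y

/-- There is a bounded domain `Ω` of `ℝ³`, namely an open ball with finitely many pairwise disjoint
closed balls removed, and a radius `ρ`, such that a minimising position of the obstacle exists and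
no minimising position touches the boundary of `Ω`. -/
theorem result :
    ∃ (Ω : Set (EuclideanSpace ℝ (Fin 3))) (ρ : ℝ),
      IsOpen Ω ∧ IsConnected Ω ∧ Bornology.IsBounded Ω ∧ 0 < ρ ∧
      (∃ (R : ℝ) (F : Finset (EuclideanSpace ℝ (Fin 3) × ℝ)),
        (∀ b ∈ F, 0 < b.2 ∧ closedBall b.1 b.2 ⊆ ball 0 R) ∧
        (∀ b ∈ F, ∀ b' ∈ F, b ≠ b' → Disjoint (closedBall b.1 b.2) (closedBall b'.1 b'.2)) ∧
        Ω = ball 0 R \ ⋃ b ∈ F, closedBall b.1 b.2) ∧
      (∃ x, IsMinimiser Ω ρ x) ∧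
      ∀ x, IsMinimiser Ω ρ x → ρ < infDist x (frontier Ω) := by
  obtain ⟨R, F, hR, hgood, ⟨x₀, h1, h2⟩, h3⟩ := main_aux
  refine ⟨holedBall R F, 1, holedBall_isOpen R F, holedBall_connected R hR F hgood,
    holedBall_bounded R F, one_pos, ⟨R, F, hgood.1, hgood.2, rfl⟩, ⟨x₀, h1, h2⟩, ?_⟩
  intro x hx
  exact h3 x hx.1 hx.2

end Pool.Agent.Results.MP_541d1f_an.InteriorMinimiser
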